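import Mathlib

/-!
# HBL.Crit : abstract criterion for S02124 (MP_838612_al)

`Q` finite group acting on an abelian group `A`;
`Kills Q A u` : `u ∈ ℤ[F]`, `F = FreeGroup ℕ`, acts as zero on `A` for every hom `F → Q`.

* `not_fb_of_module` : criterion with modules `B` of groups `P`;
* `not_fb_of_function` : criterion with functions `f : P → k`.
-/

set_option autoImplicit false

namespace Pool.Agent.HBL

/-! ## Semidirect products -/

/-- `B ⋊ P` for an additive group `B` with an action of `P`. -/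
@[ext] structure SD (P B : Type) where
  v : B
  g : P

namespace SD

variable {P B : Type} [Group P] [AddCommGroup B] [DistribMulAction P B]

instance : Mul (SD P B) := ⟨fun x y => ⟨x.v + x.g • y.v, x.g * y.g⟩⟩
instance : One (SD P B) := ⟨⟨0, 1⟩⟩
instance : Inv (SD P B) := ⟨fun x => ⟨-(x.g⁻¹ • x.v), x.g⁻¹⟩⟩

@[simp] lemma mul_v (x y : SD P B) : (x * y).v = x.v + x.g • y.v := rfl
@[simp] lemma mul_g (x y : SD P B) : (x * y).g = x.g * y.g := rfl
@[simp] lemma one_v : (1 : SD P B).v = 0 := rfl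
@[simp] lemma one_g : (1 : SD P B).g = 1 := rfl
@[simp] lemma inv_v (x : SD P B) : (x⁻¹).v = -(x.g⁻¹ • x.v) := rfl
@[simp] lemma inv_g (x : SD P B) : (x⁻¹).g = x.g⁻¹ := rfl

instance : Group (SD P B) :=
  Group.ofLeftAxioms
    (fun x y z => by
      ext
      · simp [smul_add, mul_smul, add_assoc]
      · simp [mul_assoc])
    (fun x => by ext <;> simp)
    (fun x => by
      ext
      · simp
      · simp)

/-- projection to `P` -/
def pr : SD P B →* P where
  toFun x := x.g
  map_one' := rfl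
  map_mul' _ _ := rfl

@[simp] lemma pr_apply (x : SD P B) : pr x = x.g := rfl

/-- inclusion of `P` -/
def inc : P →* SD P B where
  toFun p := ⟨0, p⟩
  map_one' := rfl
  map_mul' _ _ := by ext <;> simp

@[simp] lemma inc_v (p : P) : (inc p : SD P B).v = 0 := rfl
@[simp] lemma inc_g (p : P) : (inc p : SD P B).g = p := rfl

lemma pow_v_of_g_one (x : SD P B) (hx : x.g = 1) (c : ℤ) : x ^ c = ⟨c • x.v, 1⟩ := by
  have hnat : ∀ m : ℕ, x ^ m = ⟨(m : ℤ) • x.v, 1⟩ := by
    intro m
    induction m with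
    | zero => ext <;> simp
    | succ m ih =>
      rw [pow_succ, ih]
      ext
      · simp [add_smul]
      · simp [hx]
  obtain ⟨m, rfl | rfl⟩ := c.eq_nat_or_neg
  · rw [zpow_natCast, hnat]
  · rw [zpow_neg, zpow_natCast, hnat]
    ext <;> simp

lemma conj_of_g_one (t x : SD P B) (hx : x.g = 1) : t * x * t⁻¹ = ⟨t.g • x.v, 1⟩ := by
  ext
  · simp [hx]
  · simp [hx]

lemma prod_list_of_g_one (l : List (SD P B)) (h : ∀ x ∈ l, x.g = 1) :
    l.prod = ⟨(l.map (fun x => x.v)).sum, 1⟩ := by
  induction l with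
  | nil => rfl
  | cons x l ih =>
    rw [List.prod_cons, ih (fun y hy => h y (List.mem_cons_of_mem _ hy))]
    ext
    · simp [h x List.mem_cons_self]
    · simp [h x List.mem_cons_self]

end SD

/-! ## Evaluation of group ring elements -/

/-- `F = FreeGroup ℕ` -/
abbrev F : Type := FreeGroup ℕ

/-- value of `u ∈ ℤ[G]` on `b`, through `φ : G → P` -/
noncomputable def ev {G P B : Type} [Group G] [Group P] [AddCommGroup B] [DistribMulAction P B]
    (φ : G →* P) (u : G →₀ ℤ) (b : B) : B := u.sum fun w c => c • (φ w • b)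

/-- `u` acts as zero on `A` for every hom to `Q` -/
def Kills (Q A : Type) [Group Q] [AddCommGroup A] [DistribMulAction Q A] (u : F →₀ ℤ) : Prop :=
  ∀ (φ : F →* Q) (a : A), ev φ u a = 0

section ev

variable {G P B : Type} [Group G] [Group P] [AddCommGroup B] [DistribMulAction P B]

lemma ev_zero_right (φ : G →* P) (u : G →₀ ℤ) : ev φ u (0 : B) = 0 := by
  simp [ev]

lemma ev_add_right (φ : G →* P) (u : G →₀ ℤ) (b b' : B) :
    ev φ u (b + b') = ev φ u b + ev φ u b' := by
  simp only [ev, smul_add]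
  exact Finsupp.sum_add

lemma ev_neg_right (φ : G →* P) (u : G →₀ ℤ) (b : B) :
    ev φ u (-b) = - ev φ u b := by
  have := ev_add_right φ u b (-b)
  rw [add_neg_cancel, ev_zero_right] at this
  exact (neg_eq_of_add_eq_zero_right this.symm).symm

end ev

/-! ## Fox calculus -/

/-- the module `⊕_ℕ ℤ[F]` -/
def FoxM : Type := (ℕ × F) →₀ ℤ

noncomputable instance : AddCommGroup FoxM := inferInstanceAs (AddCommGroup ((ℕ × F) →₀ ℤ))

noncomputable instance : DistribMulAction F FoxM where
  smul g u := Finsupp.mapDomain (fun p : ℕ × F => (p.1, g * p.2)) (u : (ℕ × F) →₀ ℤ)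
  one_smul u := by
    show Finsupp.mapDomain (fun p : ℕ × F => (p.1, 1 * p.2)) (u : (ℕ × F) →₀ ℤ) = u
    have : (fun p : ℕ × F => (p.1, 1 * p.2)) = id := by
      funext p; simp
    rw [this, Finsupp.mapDomain_id]
  mul_smul g h u := by
    show Finsupp.mapDomain (fun p : ℕ × F => (p.1, (g * h) * p.2)) (u : (ℕ × F) →₀ ℤ) =
      Finsupp.mapDomain (fun p : ℕ × F => (p.1, g * p.2))
        (Finsupp.mapDomain (fun p : ℕ × F => (p.1, h * p.2)) (u : (ℕ × F) →₀ ℤ))
    rw [← Finsupp.mapDomain_comp]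
    congr 1
    funext p
    simp [mul_assoc]
  smul_zero g := Finsupp.mapDomain_zero
  smul_add g u v := Finsupp.mapDomain_add

lemma foxM_smul_def (g : F) (u : FoxM) :
    g • u = (Finsupp.mapDomain (fun p : ℕ × F => (p.1, g * p.2)) (u : (ℕ × F) →₀ ℤ) : FoxM) := rfl

/-- evaluation `⊕_ℕ ℤ[F] → B`, `(x, w) ↦ φ w • b x` -/
noncomputable def foxEv {P B : Type} [Group P] [AddCommGroup B] [DistribMulAction P B]
    (φ : F →* P) (b : ℕ → B) (u : FoxM) : B :=
  Finsupp.sum (u : (ℕ × F) →₀ ℤ) fun p c => c • (φ p.2 • b p.1)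

section fox

variable {P B : Type} [Group P] [AddCommGroup B] [DistribMulAction P B]

lemma foxEv_add (φ : F →* P) (b : ℕ → B) (u v : FoxM) :
    foxEv φ b (u + v) = foxEv φ b u + foxEv φ b v := by
  unfold foxEv
  exact Finsupp.sum_add_index' (fun _ => zero_smul _ _) (fun _ _ _ => add_smul _ _ _)

lemma foxEv_smul_aux (φ : F →* P) (b : ℕ → B) (g : F) (u : (ℕ × F) →₀ ℤ) :
    (Finsupp.mapDomain (fun p : ℕ × F => (p.1, g * p.2)) u).sum
      (fun p c => c • (φ p.2 • b p.1)) = φ g • (u.sum fun p c => c • (φ p.2 • b p.1)) := by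
  rw [Finsupp.sum_mapDomain_index (h := fun (p : ℕ × F) (c : ℤ) => c • (φ p.2 • b p.1))
    (by intro _; exact zero_smul _ _) (by intro _ _ _; exact add_smul _ _ _)]
  unfold Finsupp.sum
  rw [Finset.smul_sum]
  refine Finset.sum_congr rfl fun p _ => ?_
  show u p • (φ (g * p.2) • b p.1) = φ g • (u p • (φ p.2 • b p.1))
  rw [map_mul, mul_smul, smul_comm]

lemma foxEv_smul (φ : F →* P) (b : ℕ → B) (g : F) (u : FoxM) :
    foxEv φ b (g • u) = φ g • foxEv φ b u := foxEv_smul_aux φ b g u

lemma foxEv_single (φ : F →* P) (b : ℕ → B) (i : ℕ) :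
    (Finsupp.single (i, (1 : F)) (1 : ℤ) : (ℕ × F) →₀ ℤ).sum
      (fun p c => c • (φ p.2 • b p.1)) = b i := by
  rw [Finsupp.sum_single_index (h := fun (p : ℕ × F) (c : ℤ) => c • (φ p.2 • b p.1))
    (by exact zero_smul _ _)]
  simp

/-- the hom `FoxM ⋊ F → B ⋊ P` -/
noncomputable def foxHom (φ : F →* P) (b : ℕ → B) : SD F FoxM →* SD P B where
  toFun x := ⟨foxEv φ b x.v, φ x.g⟩
  map_one' := by
    ext
    · show foxEv φ b 0 = 0
      exact Finsupp.sum_zero_index
    · exact map_one φ
  map_mul' x y := by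
    ext
    · show foxEv φ b (x.v + x.g • y.v) = foxEv φ b x.v + φ x.g • foxEv φ b y.v
      rw [foxEv_add, foxEv_smul]
    · exact map_mul φ _ _

/-- the universal derivation -/
noncomputable def foxD : F →* SD F FoxM :=
  FreeGroup.lift fun i => ⟨(Finsupp.single (i, (1 : F)) 1 : (ℕ × F) →₀ ℤ), FreeGroup.of i⟩

lemma foxD_g (w : F) : (foxD w).g = w := by
  have h : (SD.pr.comp foxD : F →* F) = MonoidHom.id F := by
    ext i
    simp [foxD]
  exact DFunLike.congr_fun h w

lemma foxHom_foxD (f : ℕ → SD P B) (w : F) :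
    FreeGroup.lift f w =
      ⟨foxEv (FreeGroup.lift fun i => (f i).g) (fun i => (f i).v) (foxD w).v,
        FreeGroup.lift (fun i => (f i).g) w⟩ := by
  have h : FreeGroup.lift f =
      (foxHom (FreeGroup.lift fun i => (f i).g) (fun i => (f i).v)).comp foxD := by
    ext1 i
    simp only [FreeGroup.lift_apply_of, MonoidHom.comp_apply, foxD]
    refine SD.ext ?_ ?_
    · exact (foxEv_single (FreeGroup.lift fun i => (f i).g) (fun i => (f i).v) i).symm
    · show (f i).g = FreeGroup.lift (fun i => (f i).g) (FreeGroup.of i)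
      simp
  rw [h]
  refine SD.ext rfl ?_
  show FreeGroup.lift (fun i => (f i).g) (foxD w).g = _
  rw [foxD_g]

/-- Fox derivative of `w` in the direction `x` -/
noncomputable def fox (w : F) (x : ℕ) : F →₀ ℤ :=
  Finsupp.curry ((foxD w).v : (ℕ × F) →₀ ℤ) x

lemma foxEv_eq (φ : F →* P) (b : ℕ → B) (w : F) :
    foxEv φ b (foxD w).v =
      (Finsupp.curry ((foxD w).v : (ℕ × F) →₀ ℤ)).sum fun x u => ev φ u (b x) := by
  unfold foxEv ev
  exact (Finsupp.sum_curry_index ((foxD w).v : (ℕ × F) →₀ ℤ)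
    (fun x w' c => c • (φ w' • b x))).symm

/-- a word is a law of `B ⋊ P` (for the tuple `f`) if it is a law of `P` and its derivatives vanish -/
lemma lift_eq_one_of_fox (f : ℕ → SD P B) (w : F)
    (h1 : FreeGroup.lift (fun i => (f i).g) w = 1)
    (h2 : ∀ x, ∀ b : B, ev (FreeGroup.lift fun i => (f i).g) (fox w x) b = 0) :
    FreeGroup.lift f w = 1 := by
  rw [foxHom_foxD]
  refine SD.ext ?_ h1
  show foxEv (FreeGroup.lift fun i => (f i).g) (fun i => (f i).v) (foxD w).v = 0
  rw [foxEv_eq]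
  unfold Finsupp.sum
  exact Finset.sum_eq_zero fun x _ => h2 x _

lemma law_g (w : F) (h : ∀ f : ℕ → SD P B, FreeGroup.lift f w = 1) (φ : F →* P) : φ w = 1 := by
  have h0 := h fun i => SD.inc (φ (FreeGroup.of i))
  have h1 : (SD.inc.comp φ : F →* SD P B) = FreeGroup.lift fun i => SD.inc (φ (FreeGroup.of i)) := by
    ext1 i
    simp
  rw [← h1] at h0
  exact congrArg SD.g h0

lemma kills_fox (w : F) (h : ∀ f : ℕ → SD P B, FreeGroup.lift f w = 1) (x : ℕ) :
    Kills P B (fox w x) := by
  classical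
  intro φ a
  have h0 := h fun i => ⟨if i = x then a else 0, φ (FreeGroup.of i)⟩
  rw [foxHom_foxD] at h0
  have h1 := congrArg SD.v h0
  have hφ : (FreeGroup.lift fun i => φ (FreeGroup.of i)) = φ := by
    ext1 i
    simp
  simp only [hφ] at h1
  rw [foxEv_eq] at h1
  simp only [SD.one_v] at h1
  rw [Finsupp.sum, Finset.sum_eq_single x] at h1
  · simpa [fox] using h1
  · intro y _ hy
    simp [hy, ev_zero_right]
  · intro hx
    rw [Finsupp.notMem_support_iff] at hx
    rw [hx]
    simp [ev]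

end fox

/-! ## Truncation of tuples -/

/-- every word uses finitely many variables -/
lemma exists_trunc (w : F) : ∃ n : ℕ, ∀ N, n ≤ N → ∀ (H : Type) [Group H] (f : ℕ → H),
    FreeGroup.lift f w = FreeGroup.lift (fun i => if i < N then f i else 1) w := by
  induction w using FreeGroup.induction_on with
  | C1 => exact ⟨0, fun N _ H _ f => by simp⟩
  | of x =>
    refine ⟨x + 1, fun N hN H _ f => ?_⟩
    simp [show x < N by omega]
  | inv_of x ih =>
    obtain ⟨n, hn⟩ := ih
    refine ⟨n, fun N hN H _ f => ?_⟩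
    rw [map_inv, map_inv, hn N hN H f]
  | mul u v ihu ihv =>
    obtain ⟨n, hn⟩ := ihu
    obtain ⟨m, hm⟩ := ihv
    refine ⟨max n m, fun N hN H _ f => ?_⟩
    rw [map_mul, map_mul, hn N (le_trans (le_max_left _ _) hN) H f,
      hm N (le_trans (le_max_right _ _) hN) H f]

lemma exists_trunc_finset (S : Finset F) : ∃ n : ℕ, ∀ w ∈ S, ∀ (H : Type) [Group H] (f : ℕ → H),
    FreeGroup.lift f w = FreeGroup.lift (fun i => if i < n then f i else 1) w := by
  classical
  choose t ht using exists_trunc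
  exact ⟨S.sup t, fun w hw H _ f => ht w _ (Finset.le_sup hw) H f⟩

/-! ## The marker group -/

/-- functions `C → A`, a type of its own -/
def Fn (C A : Type) : Type := C → A

instance (C A : Type) [AddCommGroup A] : AddCommGroup (Fn C A) :=
  inferInstanceAs (AddCommGroup (C → A))

section Fn

variable {C A Q : Type} [CommGroup C] [Group Q] [AddCommGroup A] [DistribMulAction Q A]

instance : DistribMulAction (Q × C) (Fn C A) where
  smul s φ := fun x => s.1 • φ (x * s.2)
  one_smul φ := by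
    funext x
    show (1 : Q) • φ (x * 1) = φ x
    simp
  mul_smul s t φ := by
    funext x
    show (s.1 * t.1) • φ (x * (s.2 * t.2)) = s.1 • (t.1 • φ (x * s.2 * t.2))
    rw [mul_smul, mul_assoc]
  smul_zero s := by
    funext x
    exact smul_zero _
  smul_add s φ ψ := by
    funext x
    exact smul_add _ _ _

lemma fn_smul_apply (s : Q × C) (φ : Fn C A) (x : C) : (s • φ) x = s.1 • φ (x * s.2) := rfl

lemma fn_add_apply (φ ψ : Fn C A) (x : C) : (φ + ψ) x = φ x + ψ x := rfl
lemma fn_sub_apply (φ ψ : Fn C A) (x : C) : (φ - ψ) x = φ x - ψ x := rfl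
lemma fn_zero_apply (x : C) : (0 : Fn C A) x = 0 := rfl

lemma fn_zsmul_apply (c : ℤ) (φ : Fn C A) (x : C) : (c • φ) x = c • φ x := rfl

lemma fn_sum_apply {ι : Type} (s : Finset ι) (φ : ι → Fn C A) (x : C) :
    (∑ i ∈ s, φ i) x = ∑ i ∈ s, φ i x :=
  Finset.sum_apply x s φ

lemma ev_fn_apply (Φ : F →* Q × C) (u : F →₀ ℤ) (φ : Fn C A) (x : C) :
    (ev Φ u φ) x = u.sum fun w c => c • ((Φ w).1 • φ (x * (Φ w).2)) := by
  unfold ev Finsupp.sum
  rw [fn_sum_apply]
  rfl

end Fn

open Classical in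
/-- the part of `u` over a value of `χ` -/
noncomputable def part {C : Type} [Group C] (χ : F →* C) (u : F →₀ ℤ) (s : C) : F →₀ ℤ :=
  u.filter fun w => χ w = s

lemma kills_part {C A Q : Type} [CommGroup C] [Group Q] [AddCommGroup A] [DistribMulAction Q A]
    (u : F →₀ ℤ) (hu : Kills (Q × C) (Fn C A) u) (χ : F →* C) (s : C) :
    Kills Q A (part χ u s) := by
  classical
  intro φ a
  have h := congrFun (hu (φ.prod χ) (fun x : C => if x = s then a else 0)) (1 : C)
  rw [ev_fn_apply] at h
  have h0 : ((0 : Fn C A) : C → A) 1 = 0 := rfl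
  rw [h0] at h
  rw [← h]
  unfold ev part Finsupp.sum
  rw [Finsupp.support_filter, Finset.sum_filter]
  refine Finset.sum_congr rfl fun w _ => ?_
  by_cases hw : χ w = s
  · simp [hw, Finsupp.filter_apply]
  · simp [hw]

/-- marker lemma: killed by `K` for `P` implies killed by `K` for `P × C` -/
lemma ev_marker {C A B Q P : Type} [CommGroup C] [Finite C] [Group Q] [Group P] [AddCommGroup A]
    [AddCommGroup B] [DistribMulAction Q A] [DistribMulAction P B]
    (u : F →₀ ℤ) (hu : Kills (Q × C) (Fn C A) u) (Φ : F →* P × C)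
    (hB : ∀ u' : F →₀ ℤ, Kills Q A u' → ∀ b : B, ev ((MonoidHom.fst P C).comp Φ) u' b = 0)
    (φ : Fn C B) : ev Φ u φ = 0 := by
  classical
  haveI := Fintype.ofFinite C
  funext x
  rw [ev_fn_apply]
  show _ = (0 : B)
  have key : ∀ s : C, ev ((MonoidHom.fst P C).comp Φ)
      (part ((MonoidHom.snd P C).comp Φ) u s) (φ (x * s)) = 0 := fun s =>
    hB _ (kills_part u hu _ s) _
  have : (u.sum fun w c => c • ((Φ w).1 • φ (x * (Φ w).2))) =
      ∑ s : C, ev ((MonoidHom.fst P C).comp Φ)
      (part ((MonoidHom.snd P C).comp Φ) u s) (φ (x * s)) := by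
    unfold ev part Finsupp.sum
    simp_rw [Finsupp.support_filter, Finset.sum_filter]
    rw [Finset.sum_comm]
    refine Finset.sum_congr rfl fun w _ => ?_
    rw [Finset.sum_eq_single (Φ w).2]
    · simp [Finsupp.filter_apply]
    · intro s _ hs
      simp [Ne.symm hs]
    · intro h
      exact absurd (Finset.mem_univ _) h
  rw [this]
  exact Finset.sum_eq_zero fun s _ => key s

/-! ## The special law -/

/-- the word `∏_w (θ(w) v θ(w)⁻¹)^(κ_w)` -/
noncomputable def wordOf (θ : F →* F) (v : F) (κ : F →₀ ℤ) : F :=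
  (κ.support.toList.map fun w => (θ w * v * (θ w)⁻¹) ^ (κ w)).prod

lemma map_wordOf {P B : Type} [Group P] [AddCommGroup B] [DistribMulAction P B]
    (Φ : F →* SD P B) (θ : F →* F) (v : F) (κ : F →₀ ℤ) (hv : (Φ v).g = 1) :
    Φ (wordOf θ v κ) = ⟨ev ((SD.pr.comp Φ).comp θ) κ (Φ v).v, 1⟩ := by
  unfold wordOf
  rw [map_list_prod, List.map_map, SD.prod_list_of_g_one]
  · refine SD.ext ?_ rfl
    rw [List.map_map]
    unfold ev Finsupp.sum
    rw [← Finset.sum_map_toList κ.support]
    show (List.map _ _).sum = (List.map _ _).sum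
    refine congrArg List.sum (List.map_congr_left fun w _ => ?_)
    simp only [Function.comp_apply, map_zpow, map_mul, map_inv]
    rw [SD.conj_of_g_one _ _ hv, SD.pow_v_of_g_one _ rfl]
    rfl
  · intro x hx
    rw [List.mem_map] at hx
    obtain ⟨w, _, rfl⟩ := hx
    simp only [Function.comp_apply, map_zpow, map_mul, map_inv]
    rw [SD.conj_of_g_one _ _ hv, SD.pow_v_of_g_one _ rfl]

/-- Not finitely based, in the words of the frozen statement -/
def NotFB : Prop :=
    ¬ (∀ (G : Type) [Group G],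
      (∃ A : Subgroup G, A.FiniteIndex ∧ ∀ a ∈ A, ∀ b ∈ A, a * b = b * a) →
      ∃ S : Finset (FreeGroup ℕ),
        (∀ w ∈ S, ∀ f : ℕ → G, FreeGroup.lift f w = 1) ∧
        ∀ (H : Type) [Group H],
          (∀ w ∈ S, ∀ f : ℕ → H, FreeGroup.lift f w = 1) →
          ∀ w : FreeGroup ℕ, (∀ f : ℕ → G, FreeGroup.lift f w = 1) →
            ∀ f : ℕ → H, FreeGroup.lift f w = 1)

/-- CRITERION, module form. -/
theorem not_fb_of_module (Q A : Type) [Group Q] [Finite Q] [AddCommGroup A] [DistribMulAction Q A]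
    (h : ∀ n : ℕ, ∃ (P : Type) (_ : Group P) (B : Type) (_ : AddCommGroup B)
      (_ : DistribMulAction P B),
      (∀ w : F, (∀ φ : F →* Q, φ w = 1) → ∀ φ : F →* P, φ w = 1) ∧
      (∀ g : ℕ → P, (∀ i, n ≤ i → g i = 1) → ∀ u : F →₀ ℤ, Kills Q A u →
        ∀ b : B, ev (FreeGroup.lift g) u b = 0) ∧
      (∃ u : F →₀ ℤ, Kills Q A u ∧ ∃ (φ : F →* P) (b : B), ev φ u b ≠ 0)) :
    NotFB := by
  classical
  intro hmain
  -- the marker group
  set e : ℕ := Nat.card Q with he
  have hepos : 0 < e := Nat.card_pos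
  let C : Type := Multiplicative (ZMod (e + 1))
  haveI : NeZero (e + 1) := ⟨by omega⟩
  haveI : Finite C := inferInstanceAs (Finite (ZMod (e + 1)))
  have hC : ∀ c : C, c ^ (e + 1) = 1 := by
    intro c
    have h1 : (e + 1) • (Multiplicative.toAdd c : ZMod (e + 1)) = 0 := by
      rw [nsmul_eq_mul]
      simp
    exact congrArg Multiplicative.ofAdd h1
  have hQ : ∀ q : Q, q ^ e = 1 := fun q => pow_card_eq_one'
  obtain ⟨S, hS1, hS2⟩ := hmain (SD (Q × C) (Fn C A)) ⟨(SD.pr : SD (Q × C) (Fn C A) →* Q × C).ker, by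
      refine ⟨?_, ?_⟩
      · haveI : Finite (SD.pr : SD (Q × C) (Fn C A) →* Q × C).range := inferInstance
        exact Subgroup.finiteIndex_ker _
      · intro a ha b hb
        have ha' : a.g = 1 := ha
        have hb' : b.g = 1 := hb
        refine SD.ext ?_ ?_
        · rw [SD.mul_v, SD.mul_v, ha', hb', one_smul, one_smul, add_comm]
        · rw [SD.mul_g, SD.mul_g, ha', hb']⟩
  obtain ⟨n, hn⟩ := exists_trunc_finset S
  obtain ⟨P, _, B, _, _, hlaw, hloc, κ, hκ, φ0, b0, hne⟩ := h n
  -- the laws in `S` hold in `H`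
  have hH : ∀ w ∈ S, ∀ f : ℕ → SD (P × C) (Fn C B), FreeGroup.lift f w = 1 := by
    intro w hw f
    rw [hn w hw (SD (P × C) (Fn C B)) f]
    have hg : ∀ i, n ≤ i → ((fun i => if i < n then f i else 1) i).g = 1 := by
      intro i hi
      simp [show ¬ i < n by omega]
    generalize (fun i => if i < n then f i else 1) = f' at hg
    apply lift_eq_one_of_fox
    · -- law of `P × C`
      have hwQC : ∀ φ : F →* Q × C, φ w = 1 := law_g w (hS1 w hw)
      have h1 : ∀ φ : F →* Q, φ w = 1 := fun φ => by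
        have := hwQC (φ.prod 1)
        exact congrArg Prod.fst this
      have h2 : ∀ φ : F →* C, φ w = 1 := fun φ => by
        have := hwQC ((1 : F →* Q).prod φ)
        exact congrArg Prod.snd this
      have h3 := hlaw w h1
      refine Prod.ext ?_ ?_
      · exact h3 ((MonoidHom.fst P C).comp (FreeGroup.lift fun i => (f' i).g))
      · exact h2 ((MonoidHom.snd P C).comp (FreeGroup.lift fun i => (f' i).g))
    · intro x b
      apply ev_marker (Q := Q) (A := A) (fox w x) (kills_fox w (hS1 w hw) x)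
      intro u' hu' b'
      have hh : (MonoidHom.fst P C).comp (FreeGroup.lift fun i => (f' i).g) =
          FreeGroup.lift fun i => ((f' i).g).1 := by
        ext1 i
        simp
      rw [hh]
      exact hloc _ (fun i hi => by rw [hg i hi]; rfl) u' hu' b'
  -- the special law
  let θ : F →* F := FreeGroup.lift fun i => (FreeGroup.of (i + 2)) ^ (e + 1)
  let v : F := FreeGroup.of 0 * (FreeGroup.of 1) ^ e * (FreeGroup.of 0)⁻¹ * ((FreeGroup.of 1) ^ e)⁻¹
  have hG : ∀ f : ℕ → SD (Q × C) (Fn C A), FreeGroup.lift f (wordOf θ v κ) = 1 := by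
    intro f
    have hv : (FreeGroup.lift f v).g = 1 := by
      simp only [v, map_mul, map_inv, map_pow, FreeGroup.lift_apply_of, SD.mul_g, SD.inv_g]
      have hpow : ((f 1) ^ e).g = (1, (f 1).g.2 ^ e) := by
        have : ((f 1) ^ e).g = (f 1).g ^ e := map_pow (SD.pr : SD (Q × C) (Fn C A) →* Q × C) (f 1) e
        rw [this]
        refine Prod.ext ?_ ?_
        · exact hQ _
        · rfl
      show (f 0).g * ((f 1) ^ e).g * ((f 0).g)⁻¹ * (((f 1) ^ e).g)⁻¹ = 1
      rw [hpow]
      refine Prod.ext ?_ ?_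
      · show (f 0).g.1 * 1 * ((f 0).g.1)⁻¹ * (1 : Q)⁻¹ = 1
        simp
      · show (f 0).g.2 * (f 1).g.2 ^ e * ((f 0).g.2)⁻¹ * ((f 1).g.2 ^ e)⁻¹ = 1
        rw [mul_comm (f 0).g.2 ((f 1).g.2 ^ e), mul_inv_cancel_right, mul_inv_cancel]
    rw [map_wordOf _ _ _ _ hv]
    have hφ : (SD.pr.comp (FreeGroup.lift f)).comp θ =
        (FreeGroup.lift fun i => (f (i + 2)).g.1).prod 1 := by
      ext1 i
      refine Prod.ext ?_ ?_
      · show ((FreeGroup.lift f (θ (FreeGroup.of i))).g).1 = _
        simp only [θ, FreeGroup.lift_apply_of, map_pow]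
        have : ((f (i + 2)) ^ (e + 1)).g = (f (i + 2)).g ^ (e + 1) :=
          map_pow (SD.pr : SD (Q × C) (Fn C A) →* Q × C) (f (i + 2)) (e + 1)
        rw [this]
        show (f (i + 2)).g.1 ^ (e + 1) = _
        rw [pow_succ, hQ, one_mul]
        simp
      · show ((FreeGroup.lift f (θ (FreeGroup.of i))).g).2 = _
        simp only [θ, FreeGroup.lift_apply_of, map_pow]
        have : ((f (i + 2)) ^ (e + 1)).g = (f (i + 2)).g ^ (e + 1) :=
          map_pow (SD.pr : SD (Q × C) (Fn C A) →* Q × C) (f (i + 2)) (e + 1)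
        rw [this]
        show (f (i + 2)).g.2 ^ (e + 1) = _
        rw [hC]
        rfl
    rw [hφ]
    refine SD.ext ?_ ?_
    · show ev _ κ _ = 0
      funext x
      rw [ev_fn_apply]
      show _ = (0 : A)
      have := hκ (FreeGroup.lift fun i => (f (i + 2)).g.1) ((FreeGroup.lift f v).v x)
      rw [← this]
      unfold ev
      refine Finsupp.sum_congr fun w _ => ?_
      show κ w • ((FreeGroup.lift fun i => (f (i + 2)).g.1) w • (FreeGroup.lift f v).v (x * 1)) = _
      rw [mul_one]
    · rfl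
  -- it fails in `H`
  let c0 : C := Multiplicative.ofAdd (1 : ZMod (e + 1))
  let Fb : Fn C B := fun x => if x = 1 then b0 else 0
  let f : ℕ → SD (P × C) (Fn C B) := fun i =>
    match i with
    | 0 => ⟨Fb, 1⟩
    | 1 => ⟨0, (1, c0)⟩
    | (j + 2) => ⟨0, (φ0 (FreeGroup.of j), 1)⟩
  have hP : ∀ p : P, p ^ e = 1 := by
    intro p
    have := hlaw ((FreeGroup.of 0) ^ e) (fun φ => by rw [map_pow, hQ])
      (FreeGroup.lift fun _ => p)
    simpa using this
  have hfail := hS2 (SD (P × C) (Fn C B)) hH (wordOf θ v κ) hG f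
  have hz : (f 1) ^ e = ⟨0, (1, c0 ^ e)⟩ := by
    have h1 : f 1 = SD.inc ((1 : P), c0) := rfl
    rw [h1, ← map_pow]
    refine SD.ext ?_ ?_
    · rfl
    · show ((1 : P), c0) ^ e = _
      refine Prod.ext ?_ ?_
      · show (1 : P) ^ e = 1
        simp
      · rfl
  have hvH : FreeGroup.lift f v = ⟨Fb - ((1 : P), c0 ^ e) • Fb, 1⟩ := by
    simp only [v, map_mul, map_inv, map_pow, FreeGroup.lift_apply_of]
    rw [hz]
    have hf0 : f 0 = ⟨Fb, 1⟩ := rfl
    rw [hf0]
    refine SD.ext ?_ ?_
    · simp only [SD.mul_v, SD.mul_g, SD.inv_v, SD.inv_g, inv_one, one_smul, mul_one, one_mul,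
        smul_zero, neg_zero, add_zero, smul_neg, sub_eq_add_neg]
    · simp only [SD.mul_g, SD.inv_g, inv_one, mul_one, one_mul, mul_inv_cancel]
  have hv1 : (FreeGroup.lift f v).g = 1 := by rw [hvH]
  rw [map_wordOf _ _ _ _ hv1] at hfail
  have hval := congrFun (congrArg SD.v hfail) (1 : C)
  have hφ : (SD.pr.comp (FreeGroup.lift f)).comp θ = φ0.prod 1 := by
    ext1 i
    have h2 : f (i + 2) = ⟨0, (φ0 (FreeGroup.of i), 1)⟩ := rfl
    have h3 : ((f (i + 2)) ^ (e + 1)).g = (f (i + 2)).g ^ (e + 1) :=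
      map_pow (SD.pr : SD (P × C) (Fn C B) →* P × C) (f (i + 2)) (e + 1)
    refine Prod.ext ?_ ?_
    · show ((FreeGroup.lift f (θ (FreeGroup.of i))).g).1 = _
      simp only [θ, FreeGroup.lift_apply_of, map_pow]
      rw [h3, h2]
      show (φ0 (FreeGroup.of i)) ^ (e + 1) = _
      rw [pow_succ, hP, one_mul]
      rfl
    · show ((FreeGroup.lift f (θ (FreeGroup.of i))).g).2 = _
      simp only [θ, FreeGroup.lift_apply_of, map_pow]
      rw [h3, h2]
      show (1 : C) ^ (e + 1) = _
      simp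
  simp only [hφ] at hval
  rw [ev_fn_apply] at hval
  rw [hvH] at hval
  have hc0 : (c0 ^ e : C) ≠ 1 := by
    intro h0
    have h1 : c0 = 1 := by
      have := hC c0
      rw [pow_succ, h0, one_mul] at this
      exact this
    have h2 : (1 : ZMod (e + 1)) = 0 := congrArg Multiplicative.toAdd h1
    haveI : Fact (1 < e + 1) := ⟨by omega⟩
    exact one_ne_zero h2
  apply hne
  have hb1 : (Fb - ((1 : P), c0 ^ e) • Fb) (1 : C) = b0 := by
    rw [fn_sub_apply, fn_smul_apply]
    have h5 : Fb 1 = b0 := if_pos rfl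
    have h6 : Fb (1 * c0 ^ e) = 0 := if_neg (by rw [one_mul]; exact hc0)
    show Fb 1 - (1 : P) • Fb (1 * c0 ^ e) = b0
    rw [h5, h6, smul_zero, sub_zero]
  have h0 : ((1 : SD (P × C) (Fn C B)).v) (1 : C) = 0 := rfl
  rw [h0] at hval
  unfold ev
  rw [← hval]
  refine Finsupp.sum_congr fun w _ => ?_
  show κ w • (φ0 w • b0) = κ w • (φ0 w • (Fb - ((1 : P), c0 ^ e) • Fb) (1 * 1))
  rw [mul_one, hb1]

/-! ## The criterion with functions -/

/-- functions on `P` with the action by right translations -/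
def FnP (P k : Type) : Type := P → k

instance (P k : Type) [AddCommGroup k] : AddCommGroup (FnP P k) :=
  inferInstanceAs (AddCommGroup (P → k))

instance {P k : Type} [Group P] [AddCommGroup k] : DistribMulAction P (FnP P k) where
  smul g φ := fun h => φ (h * g)
  one_smul φ := by
    funext h
    show φ (h * 1) = φ h
    rw [mul_one]
  mul_smul s t φ := by
    funext h
    show φ (h * (s * t)) = φ (h * s * t)
    rw [mul_assoc]
  smul_zero s := rfl
  smul_add s φ ψ := rfl

lemma fnP_smul_apply {P k : Type} [Group P] [AddCommGroup k] (g : P) (φ : FnP P k) (h : P) :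
    (g • φ) h = φ (h * g) := rfl

/-- the submodule generated by `f` -/
def gen {P k : Type} [Group P] [AddCommGroup k] (f : FnP P k) : AddSubgroup (FnP P k) :=
  AddSubgroup.closure (Set.range fun g : P => (g • f : FnP P k))

lemma smul_mem_gen {P k : Type} [Group P] [AddCommGroup k] (f : FnP P k) (g : P) (φ : FnP P k)
    (h : φ ∈ gen f) : g • φ ∈ gen f := by
  unfold gen at h ⊢
  induction h using AddSubgroup.closure_induction with
  | mem x hx =>
    obtain ⟨g', rfl⟩ := hx
    refine AddSubgroup.subset_closure ⟨g * g', ?_⟩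
    exact mul_smul g g' f
  | zero =>
    rw [smul_zero]
    exact zero_mem _
  | add x y _ _ hx hy =>
    rw [smul_add]
    exact add_mem hx hy
  | neg x _ hx =>
    rw [smul_neg]
    exact neg_mem hx

instance {P k : Type} [Group P] [AddCommGroup k] (f : FnP P k) : DistribMulAction P (gen f) where
  smul g φ := ⟨g • φ.1, smul_mem_gen f g φ.1 φ.2⟩
  one_smul φ := Subtype.ext (one_smul _ _)
  mul_smul s t φ := Subtype.ext (mul_smul _ _ _)
  smul_zero s := Subtype.ext (smul_zero _)
  smul_add s φ ψ := Subtype.ext (smul_add _ _ _)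

lemma ev_gen_val {G P k : Type} [Group G] [Group P] [AddCommGroup k] (f : FnP P k) (φ : G →* P)
    (u : G →₀ ℤ) (b : gen f) : ((ev φ u b : gen f) : FnP P k) = ev φ u (b : FnP P k) := by
  unfold ev Finsupp.sum
  rw [AddSubgroup.val_finsetSum]
  rfl

lemma ev_fnP_apply {G P k : Type} [Group G] [Group P] [AddCommGroup k] (φ : G →* P)
    (u : G →₀ ℤ) (b : FnP P k) (h : P) :
    (ev φ u b) h = u.sum fun w c => c • b (h * φ w) := by
  unfold ev Finsupp.sum
  have : (∑ a ∈ u.support, u a • φ a • b) h = ∑ a ∈ u.support, (u a • φ a • b) h :=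
    Finset.sum_apply h _ _
  rw [this]
  rfl

/-- CRITERION, function form. -/
theorem not_fb_of_function (Q A : Type) [Group Q] [Finite Q] [AddCommGroup A]
    [DistribMulAction Q A]
    (h : ∀ n : ℕ, ∃ (P : Type) (_ : Group P) (k : Type) (_ : AddCommGroup k) (f : P → k),
      (∀ w : F, (∀ φ : F →* Q, φ w = 1) → ∀ φ : F →* P, φ w = 1) ∧
      (∀ g : ℕ → P, (∀ i, n ≤ i → g i = 1) → ∀ u : F →₀ ℤ, Kills Q A u →
        (u.sum fun w c => c • f (FreeGroup.lift g w)) = 0) ∧
      (∃ u : F →₀ ℤ, Kills Q A u ∧ ∃ φ : F →* P, (u.sum fun w c => c • f (φ w)) ≠ 0)) :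
    NotFB := by
  classical
  refine not_fb_of_module Q A fun n => ?_
  obtain ⟨P, _, k, _, f, hlaw, hloc, κ, hκ, φ0, hne⟩ := h (n + 1)
  refine ⟨P, inferInstance, gen (f : FnP P k), inferInstance, inferInstance, hlaw, ?_, ?_⟩
  · intro g hg u hu b
    obtain ⟨b, hb⟩ := b
    apply Subtype.ext
    rw [ev_gen_val]
    show ev (FreeGroup.lift g) u b = (0 : FnP P k)
    unfold gen at hb
    induction hb using AddSubgroup.closure_induction with
    | mem x hx =>
      obtain ⟨g0, rfl⟩ := hx
      funext h0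
      rw [ev_fnP_apply]
      show (u.sum fun w c => c • f (h0 * FreeGroup.lift g w * g0)) = (0 : k)
      -- truncation and one more variable
      let τ : F →* F := FreeGroup.lift fun i => if i < n then FreeGroup.of i else 1
      let u' : F →₀ ℤ := u.mapDomain fun w => FreeGroup.of n * τ w
      have hu' : Kills Q A u' := by
        intro φ a
        have h1 := hu (φ.comp τ) a
        have h2 : ev φ u' a = φ (FreeGroup.of n) • ev (φ.comp τ) u a := by
          unfold ev
          simp only [u']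
          rw [Finsupp.sum_mapDomain_index (h := fun (w : F) (c : ℤ) => c • (φ w • a))
            (by intro _; exact zero_smul _ _) (by intro _ _ _; exact add_smul _ _ _)]
          unfold Finsupp.sum
          rw [Finset.smul_sum]
          refine Finset.sum_congr rfl fun w _ => ?_
          show u w • (φ (FreeGroup.of n * τ w) • a) = φ (FreeGroup.of n) • (u w • (φ (τ w) • a))
          rw [map_mul, mul_smul, smul_comm]
        rw [h2, h1, smul_zero]
      let p : ℕ → P := fun i => if i < n then g0⁻¹ * g i * g0 else if i = n then h0 * g0 else 1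
      have h3 := hloc p (fun i hi => by
        simp [p, show ¬ i < n by omega, show ¬ i = n by omega]) u' hu'
      have h4 : ∀ w : F, FreeGroup.lift p (τ w) = g0⁻¹ * FreeGroup.lift g w * g0 := by
        intro w
        have : (FreeGroup.lift p).comp τ =
            (MulAut.conj g0⁻¹).toMonoidHom.comp (FreeGroup.lift g) := by
          ext1 i
          by_cases hi : i < n
          · simp [τ, p, hi]
          · simp [τ, hi, hg i (by omega)]
        have h5 := DFunLike.congr_fun this w
        simpa using h5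
      simp only [u'] at h3
      rw [Finsupp.sum_mapDomain_index (h := fun (w : F) (c : ℤ) => c • f (FreeGroup.lift p w))
            (by intro _; exact zero_smul _ _) (by intro _ _ _; exact add_smul _ _ _)] at h3
      rw [← h3]
      refine Finsupp.sum_congr fun w _ => ?_
      congr 2
      rw [map_mul, h4]
      simp [p, mul_assoc]
    | zero => exact ev_zero_right _ _
    | add x y _ _ hx hy => rw [ev_add_right, hx, hy, add_zero]
    | neg x _ hx => rw [ev_neg_right, hx, neg_zero]
  · refine ⟨κ, hκ, φ0, ⟨f, AddSubgroup.subset_closure ⟨1, one_smul _ _⟩⟩, fun h0 => hne ?_⟩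
    have h1 : ((ev φ0 κ (⟨f, AddSubgroup.subset_closure ⟨1, one_smul _ _⟩⟩ :
        gen (f : FnP P k)) : gen (f : FnP P k)) : FnP P k) 1 =
        ((0 : gen (f : FnP P k)) : FnP P k) 1 := by rw [h0]
    rw [ev_gen_val, ev_fnP_apply] at h1
    have h2 : ((0 : gen (f : FnP P k)) : FnP P k) 1 = 0 := rfl
    rw [h2] at h1
    rw [← h1]
    refine Finsupp.sum_congr fun w _ => ?_
    rw [one_mul]

end Pool.Agent.HBL
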